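import Pool.Agent.Lib.MP_e682ea_al.Main

/-!
Over every field there are a Hopf algebra with bijective antipode, a left coideal subalgebra and a
two-sided counital integral in it, such that the coideal subalgebra is not quasi-Frobenius (it is
finite dimensional, but not injective as a module over itself, on either side).

The Hopf algebra is the universal one, with bijective antipode, coacting on the five dimensional
algebra `V` with basis `e₀, e, x, y, ε` and the products `e₀² = e₀, e² = e, ex = x, ye = y,
eε = εe = ε, xy = ε` (all others zero), with a group-like element that implements the square of the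
antipode added; the coideal subalgebra is the image of `k1 + V` under the coaction followed by the
counit of coordinates. That this image is six dimensional is shown with an explicit infinite
dimensional representation.
-/

open scoped TensorProduct

namespace Pool.Agent.Results.MP_e682ea_al

universe u

section
variable (k : Type u) [Field k] {A : Type u} [Ring A] [HopfAlgebra k A]

/-- The subalgebra `N` is a left coideal subalgebra: `Δ(N)` is contained in (the image of)
`A ⊗ N`. -/
def IsLeftCoidealSubalgebra (N : Subalgebra k A) : Prop :=
  ∀ x ∈ N, Coalgebra.comul (R := k) x ∈
    LinearMap.range (TensorProduct.map (LinearMap.id : A →ₗ[k] A) N.val.toLinearMap)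

/-- `P` is a two-sided counital integral in `N`: it lies in `N`, satisfies
`xP = Px = ε(x)P` for all `x ∈ N`, and `ε(P) = 1`. -/
def IsTwoSidedCounitalIntegral (N : Subalgebra k A) (P : A) : Prop :=
  P ∈ N ∧
    (∀ x ∈ N, x * P = Coalgebra.counit (R := k) x • P ∧
      P * x = Coalgebra.counit (R := k) x • P) ∧
    Coalgebra.counit (R := k) P = 1

end

/-- Over every field `k` there are a Hopf algebra `A` with bijective antipode, a left coideal
subalgebra `N` of `A` and a two-sided counital integral `P` in `N` such that `N` (which is finite
dimensional) is injective neither as a left nor as a right module over itself. -/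
theorem CoidealNotQF.result (k : Type u) [Field k] :
    ∃ (A : Type u) (_ : Ring A) (_ : HopfAlgebra k A),
      Function.Bijective (HopfAlgebra.antipode k (A := A)) ∧
      ∃ (N : Subalgebra k A) (P : A),
        IsLeftCoidealSubalgebra k N ∧ IsTwoSidedCounitalIntegral k N P ∧
        FiniteDimensional k N ∧
        ¬ Module.Injective N N ∧ ¬ Module.Injective Nᵐᵒᵖ N :=
  open Pool.Agent.Lib.MP_e682ea_al in
  ⟨AA k, inferInstance, inferInstance, HA.antipode_bijective (μ₀ k), NN k, E k 0,
    coideal k, ⟨E_mem k 0, integral k, counit_E_zero k⟩, inferInstance, not_left k, not_right k⟩

end Pool.Agent.Results.MP_e682ea_al
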